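import Pool.Agent.Y535.PEG.StmB
import Pool.Agent.Y535.PEG.Rect

/-! The signed number of squares over an arc of a simple polygon is zero. -/

set_option autoImplicit false
open Complex Set Topology Metric

namespace Pool.Agent.Y154.PEG

open Pool.Agent.Y535.PEG
open Pool.Agent.H763R2 Pool.Agent.H763R2.An Pool.Agent.W675.Peg Pool.Agent.TH569.Peg
open Pool.Agent.H763R2.Dm (NoSq floor_const)

variable {q : ℝ → ℂ}

open Classical in
/-- the square turned by one right angle -/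
noncomputable def gR (q : ℝ → ℂ) (z : ℝ × ℝ) : ℝ × ℝ := (Int.fract z.2,
  if Int.fract z.2 < pr q (CC q z.1 z.2) then pr q (CC q z.1 z.2)
    else pr q (CC q z.1 z.2) + 1)

theorem CCf (x y : ℝ) : CC q x y = q y + I * (q y - q x) := rfl

theorem ne_of_Zq (J : Inj q) {x y : ℝ} (hz : (x, y) ∈ Zq q) : q x ≠ q y :=
  J x y hz.1.1 hz.1.2

theorem turn1 {b σ x y : ℝ} (T : Two q b σ) (J : Inj q) (hz : (x, y) ∈ Zq q)
    (h0 : 0 < x) (h1 : x < b) : gR q (x, y) ∈ Zq q ∧ 0 < (gR q (x, y)).1 ∧ (gR q (x, y)).1 < b ∧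
      q (gR q (x, y)).1 = q y ∧ q (gR q (x, y)).2 = CC q x y := by
  have L := T.G.L
  have b1 := T.b1
  have hne := ne_of_Zq J hz
  obtain ⟨⟨hxy, hyx⟩, hD, hC⟩ := hz
  simp only at hxy hyx hD hC
  obtain ⟨y0, hy0⟩ : ∃ y0, y0 = Int.fract y := ⟨_, rfl⟩
  have y0m : y0 ∈ Ico (0:ℝ) 1 := by rw [hy0]; exact ⟨Int.fract_nonneg y, Int.fract_lt_one y⟩
  have qy0 : q y0 = q y := by rw [hy0]; exact fract_q L y
  have eC : CC q x y0 = CC q x y := by rw [CCf, CCf, qy0]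
  have eD : DD q x y0 = DD q x y := by unfold DD; rw [qy0]
  have hS : SqP q x y0 := ⟨⟨h0.le, by linarith⟩, y0m, by rw [qy0]; exact hne, by rw [eC]; exact hC,
    by rw [eD]; exact hD⟩
  obtain ⟨u, hu⟩ : ∃ u, u = pr q (CC q x y) := ⟨_, rfl⟩
  obtain ⟨um, ue⟩ := pr_spec L hC
  rw [← hu] at um ue
  have hS1 : SqP q y0 u := by
    have := hS.rot L
    rwa [eC, ← hu] at this
  have s1 := T.step hS h0 h1
  obtain ⟨t1, t2, t3⟩ := hS1.toZ L
  have hgR : gR q (x, y) = (y0, if y0 < u then u else u + 1) := by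
    unfold gR
    simp only
    rw [← hu, ← hy0]
  rw [hgR]
  refine ⟨?_, s1.1, s1.2, qy0, ?_⟩
  · split_ifs with h
    · exact t1 h
    · exact t2 (lt_of_le_of_ne (not_lt.1 h) (fun h' => t3 h'.symm))
  · show q (if y0 < u then u else u + 1) = CC q x y
    split_ifs with h
    · exact ue
    · rw [L.per]; exact ue

theorem turn1_inj {b σ x y x' y' : ℝ} (T : Two q b σ) (J : Inj q) (hz : (x, y) ∈ Zq q)
    (h0 : 0 < x) (h1 : x < b) (hz' : (x', y') ∈ Zq q) (h0' : 0 < x') (h1' : x' < b)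
    (h : gR q (x, y) = gR q (x', y')) : (x, y) = (x', y') := by
  have b1 := T.b1
  obtain ⟨-, -, -, g1, g2⟩ := turn1 T J hz h0 h1
  obtain ⟨-, -, -, g1', g2'⟩ := turn1 T J hz' h0' h1'
  have hf : Int.fract y = Int.fract y' := congrArg Prod.fst h
  rw [h] at g1 g2
  have e1 : q y = q y' := g1.symm.trans g1'
  have e2 : CC q x y = CC q x' y' := g2.symm.trans g2'
  rw [CCf, CCf, e1] at e2
  have e3 : I * (q x - q x') = 0 := by linear_combination -e2
  have e4 : q x = q x' := by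
    rcases mul_eq_zero.1 e3 with h6 | h6
    · exact absurd h6 I_ne_zero
    · exact sub_eq_zero.1 h6
  have hx : x = x' := by
    rcases lt_trichotomy x x' with h7 | h7 | h7
    · exact absurd e4 (J x x' h7 (by linarith))
    · exact h7
    · exact absurd e4.symm (J x' x h7 (by linarith))
  obtain ⟨⟨hxy, hyx⟩, -, -⟩ := hz
  obtain ⟨⟨hxy', hyx'⟩, -, -⟩ := hz'
  simp only at hxy hyx hxy' hyx'
  obtain ⟨n, hn⟩ := Int.fract_eq_fract.1 hf
  have n0 : n = 0 := by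
    have f1 : (n : ℝ) < 1 := by linarith
    have f2 : (-1 : ℝ) < n := by linarith
    have f3 : n < 1 := by exact_mod_cast f1
    have f4 : -1 < n := by exact_mod_cast f2
    omega
  rw [n0] at hn
  push_cast at hn
  rw [hx, show y = y' by linarith]

open Classical in
/-- the signs over the arc add up to zero -/
theorem sum_zero {b σ : ℝ} (T : Two q b σ) (J : Inj q) {j : ℝ × ℝ → ℤ} (S : Sgs q j) :
    ∑ z ∈ (T.G.fin 3).toFinset.filter (fun z => 0 < z.1 ∧ z.1 < b), j z = 0 := by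
  have b1 := T.b1
  have hmem : ∀ z, z ∈ (T.G.fin 3).toFinset.filter (fun z => 0 < z.1 ∧ z.1 < b) ↔
      z ∈ Zq q ∧ 0 < z.1 ∧ z.1 < b := by
    intro z
    simp only [Finset.mem_filter, Set.Finite.mem_toFinset, mem_inter_iff, mem_ofPred_eq]
    constructor
    · rintro ⟨⟨h1, -⟩, h2⟩
      exact ⟨h1, h2⟩
    · rintro ⟨h1, h2⟩
      exact ⟨⟨h1, by rw [abs_le]; constructor <;> linarith [h2.1, h2.2]⟩, h2⟩
  obtain ⟨F, hF⟩ : ∃ F, F = (T.G.fin 3).toFinset.filter (fun z => 0 < z.1 ∧ z.1 < b) := ⟨_, rfl⟩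
  rw [← hF] at hmem ⊢
  have hmaps : ∀ z ∈ F, gR q z ∈ F := by
    intro z hz
    obtain ⟨h1, h2, h3⟩ := (hmem z).1 hz
    obtain ⟨g1, g2, g3, -, -⟩ := turn1 (x := z.1) (y := z.2) T J h1 h2 h3
    exact (hmem _).2 ⟨g1, g2, g3⟩
  have hinj : Set.InjOn (gR q) (F : Set (ℝ × ℝ)) := by
    intro z hz w hw h
    obtain ⟨h1, h2, h3⟩ := (hmem z).1 hz
    obtain ⟨h1', h2', h3'⟩ := (hmem w).1 hw
    exact turn1_inj (x := z.1) (y := z.2) (x' := w.1) (y' := w.2) T J h1 h2 h3 h1' h2' h3' h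
  have himg : F.image (gR q) = F := by
    apply Finset.eq_of_subset_of_card_le
    · intro w hw
      obtain ⟨z, hz, rfl⟩ := Finset.mem_image.1 hw
      exact hmaps z hz
    · rw [Finset.card_image_of_injOn hinj]
  have h1 : ∑ z ∈ F, j z = ∑ z ∈ F, j (gR q z) := by
    conv_lhs => rw [← himg]
    exact Finset.sum_image hinj
  have h2 : ∑ z ∈ F, j (gR q z) = ∑ z ∈ F, -j z := by
    refine Finset.sum_congr rfl fun z hz => ?_
    obtain ⟨h1, h2, h3⟩ := (hmem z).1 hz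
    obtain ⟨g1, g2, g3, g4, g5⟩ := turn1 (x := z.1) (y := z.2) T J h1 h2 h3
    exact S.rot z.1 z.2 _ _ h1 g1 g4 g5
  rw [Finset.sum_neg_distrib] at h2
  omega

open Classical in
theorem t1 : S_Z → S_T1 := by
  intro hZ q b σ j T J Sj
  have L := T.G.L
  have b0 := T.b0
  have b1 := T.b1
  have S := mgc_sg L
  obtain ⟨η1, hη1, H⟩ := fin_pos (T.G.fin 3) (f := fun z => min (z.2 - z.1) (z.1 + 1 - z.2))
    (fun z hz => lt_min (by have := hz.1.1.1; linarith) (by have := hz.1.1.2; linarith))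
  obtain ⟨η0, hη0, m1, m2⟩ : ∃ η0 > 0, η0 ≤ η1 ∧ η0 ≤ 1 / 4 :=
    ⟨min η1 (1 / 4), by positivity, min_le_left _ _, min_le_right _ _⟩
  refine ⟨η0, hη0, fun η h0 h1 => ?_⟩
  have gap : ∀ x y, (x, y) ∈ Zq q → |x| ≤ 3 → η < y - x ∧ y - x < 1 - η := by
    intro x y hz hx
    have := H (x, y) ⟨hz, hx⟩
    simp only [lt_min_iff] at this
    constructor <;> linarith [this.1, this.2]
  have hGc : Continuous fun p : ℝ × ℝ => (fun x r => GG q (mgc q) x (x + r)) p.1 p.2 :=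
    (GG_cont L S.cont).comp (f := fun p : ℝ × ℝ => ((p.1, p.1 + p.2) : ℝ × ℝ)) (by fun_prop)
  have hx3 : ∀ x ∈ Icc (0:ℝ) b, |x| ≤ 3 := fun x hx => by
    rw [abs_le]; constructor <;> linarith [hx.1, hx.2]
  have hmemZ : ∀ x r, 0 < r → r < 1 → GG q (mgc q) x (x + r) = 0 → (x, x + r) ∈ Zq q :=
    fun x r hr0 hr1 h => (Zq_iff L S ⟨by simp only; linarith, by simp only; linarith⟩).1 h
  have B : Bd (fun x r => GG q (mgc q) x (x + r)) 0 b η (1 - η) := by
    refine ⟨b0.le, by linarith, fun x hx h => ?_, fun x hx h => ?_, fun y hy h => ?_,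
      fun y hy h => ?_⟩
    · have := (gap _ _ (hmemZ x η h0 (by linarith) h) (hx3 x hx)).1
      linarith
    · have := (gap _ _ (hmemZ x (1 - η) (by linarith) (by linarith) h) (hx3 x hx)).2
      linarith
    · exact T.no0 (hmemZ 0 y (by linarith [hy.1]) (by linarith [hy.2]) h)
    · exact T.nob (hmemZ b y (by linarith [hy.1]) (by linarith [hy.2]) h)
  refine ⟨B, ?_⟩
  have hsum := hZ (fun x r => GG q (mgc q) x (x + r)) hGc
    ((T.G.fin 3).toFinset.image (fun z : ℝ × ℝ => ((z.1, z.2 - z.1) : ℝ × ℝ)))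
    (fun z => j (z.1, z.1 + z.2)) (fun z hz => by
      obtain ⟨w, hw, rfl⟩ := Finset.mem_image.1 hz
      have hw' : w ∈ Zq q := by
        have : w ∈ Zq q ∩ {p | |p.1| ≤ 3} := by simpa using hw
        exact this.1
      obtain ⟨r0, hr0, hs⟩ := Sj.loc w hw'
      refine ⟨r0, hr0, fun r hr1 hr2 => ?_⟩
      have e0 : ((w.1, w.1 + (w.2 - w.1)) : ℝ × ℝ) = w := by
        ext <;> simp
      simp only
      rw [e0]
      exact hs r hr1 hr2) 0 b η (1 - η) B (fun x hx y hy h => by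
        have hz := hmemZ x y (by linarith [hy.1]) (by linarith [hy.2]) h
        refine Finset.mem_image.2 ⟨(x, x + y), ?_, by simp⟩
        rw [Set.Finite.mem_toFinset]
        exact ⟨hz, hx3 x hx⟩)
  have hset : ((T.G.fin 3).toFinset.image (fun z : ℝ × ℝ => ((z.1, z.2 - z.1) : ℝ × ℝ))).filter
      (InR 0 b η (1 - η)) = ((T.G.fin 3).toFinset.filter (fun z => 0 < z.1 ∧ z.1 < b)).image
        (fun z : ℝ × ℝ => ((z.1, z.2 - z.1) : ℝ × ℝ)) := by
    ext z
    simp only [Finset.mem_filter, Finset.mem_image]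
    constructor
    · rintro ⟨⟨w, hw, rfl⟩, ⟨g1, g2⟩, -⟩
      exact ⟨w, ⟨hw, g1, g2⟩, rfl⟩
    · rintro ⟨w, ⟨hw, g1, g2⟩, rfl⟩
      refine ⟨⟨w, hw, rfl⟩, ⟨g1, g2⟩, ?_⟩
      rw [Set.Finite.mem_toFinset] at hw
      exact gap w.1 w.2 hw.1 hw.2
  have hval : ∑ z ∈ ((T.G.fin 3).toFinset.image (fun z : ℝ × ℝ => ((z.1, z.2 - z.1) : ℝ × ℝ))).filter
      (InR 0 b η (1 - η)), j (z.1, z.1 + z.2) = 0 := by
    rw [hset, Finset.sum_image (fun z _ w _ h => by
      obtain ⟨h1, h2⟩ := Prod.mk.inj h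
      exact Prod.ext h1 (by linarith))]
    rw [← sum_zero T J Sj]
    refine Finset.sum_congr rfl fun z _ => ?_
    congr 1
    ext <;> simp
  rw [hval] at hsum
  rw [hsum]
  push_cast
  ring

end Pool.Agent.Y154.PEG
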